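import Pool.Agent.Q286.MC.Defs

/-!
Job 701 (project MC of helper286): the targets on the torus. The proof is that of `Pool.Agent.Q286.SB.wpos`.
-/

set_option autoImplicit false

namespace Pool.Agent.Q34.MC.Gm

open Complex Filter Topology Set MeasureTheory ZU TH803TW
open Pool.Agent.Y834.UT (SS Tgt hull ld)
open Pool.Agent.Q286.UZ Pool.Agent.Q286.SB

theorem gm : Pool.Agent.Q286.MC.P_GM := by
  intro K f ε hK hKs hf hε
  have hε1 : 0 < ε / 2 := by positivity
  have h12 : ε / 2 < ε := by linarith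
  have hD := target_pos hK hKs hf (ε := ε / 4) (by positivity)
  obtain ⟨T1, hT1, hv⟩ := laws hK hKs f (ε1 := ε / 4) (ε2 := ε / 2) (η := DD K f (ε / 4) / 2)
    (by positivity) (by linarith) (by positivity)
  set d : ℝ := DD K f (ε / 4) / 2 with hd
  have hd0 : 0 < d := by positivity
  have hbd : ∃ Cf : ℝ, 0 ≤ Cf ∧ ∀ s ∈ K, ‖f s‖ ≤ Cf := by
    rcases dichot hK hKs f with h | h
    · exact h
    · exfalso
      have h5 : DD K f (ε / 4) ≤ 0 := by
        refine ld_upper (T0 := 0) le_rfl fun T _ => ?_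
        rw [h]
        simp
      linarith
  obtain ⟨Cf, hCf0, hCf⟩ := hbd
  obtain ⟨a, b, B, h1, h2, h3, h4, hR⟩ := ZU.J_f.exists_rectV K hK hKs
  obtain ⟨θ, hθ, hs⟩ := sand h1 hR hCf0 hCf hε1 h12
  obtain ⟨M1, hM1⟩ := exc_time h1 h2 h3 h4 hθ (show 0 < d / 4 by positivity)
  refine ⟨a, b, B, θ, d / 2, M1, h1, h2, h3, h4, hθ, by positivity, fun M hMM1 => ?_⟩
  obtain ⟨g, hg0, hg1, hgs, hgt⟩ := hs M
  refine ⟨g, hg0, hg1, ?_, hgt⟩
  obtain ⟨T2, hT2, hb⟩ := hM1 M hMM1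
  set n : ℝ := ∫ x, g x ∂(haarT (kk M)) with hn
  have hAP := APm_torus (al_indep M) g
  set φ : ℝ → ℝ := fun t => g (tP M t) with hφ
  have hφc : Continuous φ := g.continuous.comp (tP_cont M)
  have hClm : MeasurableSet {t : ℝ | 1 ≤ φ t} := (isClosed_le continuous_const hφc).measurableSet
  obtain ⟨T3, hT3, hT3'⟩ := time_mean hAP hφc (show 0 < d / 4 by positivity)
  set T := max T1 (max T2 T3) with hT
  have q1 : T1 ≤ T := le_max_left _ _
  have q2 : T2 ≤ T := (le_max_left _ _).trans (le_max_right _ _)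
  have q3 : T3 ≤ T := (le_max_right _ _).trans (le_max_right _ _)
  have hT0 : 0 < T := by linarith
  have v1 := (hv T q1).2.1
  have v2 := hb T q2
  have v3 := (abs_le.1 (hT3' T q3)).2
  have k1 : SS (ε / 2) K f ∩ Icc 0 T ⊆ ({t : ℝ | 1 ≤ φ t} ∩ Icc 0 T) ∪
      {t : ℝ | t ∈ Icc 0 T ∧ Bad M a b B θ t} := by
    rintro t ⟨ht, htT⟩
    rcases hgs t ht with h | h
    · exact Or.inl ⟨h, htT⟩
    · exact Or.inr ⟨htT, h⟩
  have k2 := vol_le_int hφc (fun t => hg0 _) hClm (fun t ht => ht) hT0.le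
  have hφI : 0 ≤ ∫ t in (0:ℝ)..T, φ t :=
    intervalIntegral.integral_nonneg hT0.le fun t _ => hg0 _
  have k3 : ENNReal.ofReal (d * T) ≤ ENNReal.ofReal ((∫ t in (0:ℝ)..T, φ t) + d / 4 * T) := by
    have e1 : (DD K f (ε / 4) - d) = d := by rw [hd]; ring
    rw [e1] at v1
    refine v1.trans ((measure_mono k1).trans ((measure_union_le _ _).trans
      ((add_le_add k2 v2).trans ?_)))
    rw [← ENNReal.ofReal_add hφI (by positivity)]
  have k4 := (ENNReal.ofReal_le_ofReal_iff (by positivity)).1 k3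
  have v4 : (∫ t in (0:ℝ)..T, φ t) - n * T ≤ d / 4 * T := v3
  have k5 : d * T ≤ (n + d / 2) * T := by linarith
  have k6 := le_of_mul_le_mul_right k5 hT0
  linarith

end Pool.Agent.Q34.MC.Gm
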