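import Pool.Agent.Q286.MC.Defs

/-!
Job 701 (project MC of helper286): weights on the torus with a large first moment.
-/

set_option autoImplicit false

namespace Pool.Agent.Q34.MC.Pfl

open Complex Filter Topology Set MeasureTheory ZU TH803TW
open Pool.Agent.Q286.UZ Pool.Agent.Q286.SB Pool.Agent.Q286.MC

/-- the mean of one factor -/
lemma int_fac {r : ℝ} (h0 : 0 ≤ r) (h1 : r < 1) :
    ∫ x : UnitAddCircle, ‖(1:ℂ) - (r : ℂ) * fourier (-1) x‖ ∂AddCircle.haarAddCircle ≤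
      Real.exp (1 / 2 * r ^ 2) := by
  have h2 : 0 < 1 - r ^ 2 := by nlinarith
  have hn : ∀ x : UnitAddCircle, ‖(1:ℂ) - (r : ℂ) * fourier (-1) x‖ =
      ‖(1:ℂ) - (r : ℂ) * fourier 1 x‖ := by
    intro x
    rw [← Complex.norm_conj ((1:ℂ) - (r : ℂ) * fourier (-1) x)]
    congr 1
    rw [map_sub, map_mul, map_one, Complex.conj_ofReal, fneg, Complex.conj_conj]
  have hle : ∀ x : UnitAddCircle, ‖(1:ℂ) - (r : ℂ) * fourier (-1) x‖ ≤
      1 / 2 + (1 - r ^ 2) / 2 * (PK r x)⁻¹ := by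
    intro x
    rw [hn]
    unfold PK
    rw [inv_div]
    have e : (1 - r ^ 2) / 2 * (‖(1:ℂ) - (r : ℂ) * fourier 1 x‖ ^ 2 / (1 - r ^ 2)) =
        ‖(1:ℂ) - (r : ℂ) * fourier 1 x‖ ^ 2 / 2 := by
      field_simp
    rw [e]
    nlinarith [sq_nonneg (‖(1:ℂ) - (r : ℂ) * fourier 1 x‖ - 1)]
  have c1 : Continuous fun x : UnitAddCircle => ‖(1:ℂ) - (r : ℂ) * fourier (-1) x‖ := by fun_prop
  have c2 : Continuous fun x : UnitAddCircle => (PK r x)⁻¹ :=
    (PK_cont h0 h1).inv₀ fun x => (PK_pos h0 h1 x).ne'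
  have hi : ∀ g : UnitAddCircle → ℝ, Continuous g → Integrable g AddCircle.haarAddCircle :=
    fun g hg => hg.integrable_of_hasCompactSupport (HasCompactSupport.of_compactSpace _)
  have i2 : Integrable (fun x : UnitAddCircle => (1 - r ^ 2) / 2 * (PK r x)⁻¹)
      AddCircle.haarAddCircle := (hi _ c2).const_mul _
  have h3 : ∫ x : UnitAddCircle, ‖(1:ℂ) - (r : ℂ) * fourier (-1) x‖ ∂AddCircle.haarAddCircle ≤
      ∫ x : UnitAddCircle, (1 / 2 + (1 - r ^ 2) / 2 * (PK r x)⁻¹) ∂AddCircle.haarAddCircle :=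
    integral_mono (hi _ c1) ((integrable_const _).add i2) hle
  rw [integral_add (integrable_const _) i2, integral_const_mul, int_PK_inv h0 h1] at h3
  have e2 : (1 - r ^ 2) / 2 * ((1 + r ^ 2) / (1 - r ^ 2)) = (1 + r ^ 2) / 2 := by field_simp
  rw [e2] at h3
  simp only [integral_const, probReal_univ, smul_eq_mul, one_mul] at h3
  have h4 := Real.add_one_le_exp (1 / 2 * r ^ 2)
  linarith

/-- the sum over the primes -/
lemma sum_rr : ∃ C : ℝ, 0 < C ∧ ∀ M : ℕ, 3 ≤ M →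
    ∏ j : Fin (kk M), Real.exp (1 / 2 * rr M j ^ 2) ≤ C * Real.log M := by
  obtain ⟨C0, hC0⟩ := Pool.Agent.Helper256.KM.mertens_inv
  have hC00 : 0 ≤ C0 := (abs_nonneg _).trans (hC0 3 le_rfl)
  refine ⟨Real.exp C0, Real.exp_pos _, fun M hM => ?_⟩
  have hM3 : (3:ℝ) ≤ M := by exact_mod_cast hM
  have hL : 1 < Real.log M := by
    rw [Real.lt_log_iff_exp_lt (by linarith)]
    have := Real.exp_one_lt_d9
    linarith
  rw [← Real.exp_sum, ← Finset.mul_sum]
  have h3 : ∑ j : Fin (kk M), rr M j ^ 2 = ∑ p ∈ pr M, (1:ℝ) / p := by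
    simp only [rr_sq]
    rw [← Finset.sum_coe_sort (pr M) (fun p => (1:ℝ) / (p : ℝ))]
    exact Equiv.sum_comp (ee M).symm (fun p : pr M => (1:ℝ) / ((p : ℕ) : ℝ))
  rw [h3]
  have h4 : ∑ p ∈ pr M, (1:ℝ) / p ≤ Real.log (Real.log M) + C0 := by
    have := (abs_le.1 (hC0 M hM)).2
    unfold pr
    linarith
  have h5 : 0 ≤ Real.log (Real.log M) := Real.log_nonneg hL.le
  calc Real.exp (1 / 2 * ∑ p ∈ pr M, (1:ℝ) / p) ≤ Real.exp (Real.log (Real.log M) + C0) :=
        Real.exp_le_exp.2 (by linarith)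
    _ = Real.exp C0 * Real.log M := by
        rw [Real.exp_add, Real.exp_log (by linarith), mul_comm]

/-- Cauchy-Schwarz -/
lemma cs {k : ℕ} {g W : UnitAddTorus (Fin k) → ℝ} (hg : Continuous g) (hcW : Continuous W)
    (hW : ∀ x, 0 < W x) (g0 : ∀ x, 0 ≤ g x) (g1 : ∀ x, g x ≤ 1) {Q : ℝ} (hQ0 : 0 < Q)
    (hQ : ∫ x, (W x)⁻¹ ∂(haarT k) ≤ Q) :
    (∫ x, g x ∂(haarT k)) ^ 2 ≤ Q * ∫ x, g x * W x ∂(haarT k) := by
  set d := ∫ x, g x ∂(haarT k) with hd
  set P := ∫ x, g x * W x ∂(haarT k) with hP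
  have hcI : Continuous fun x => (W x)⁻¹ := hcW.inv₀ fun x => (hW x).ne'
  have hd0 : 0 ≤ d := integral_nonneg g0
  rcases eq_or_lt_of_le hd0 with h | h
  · rw [← h]
    have : 0 ≤ P := integral_nonneg fun x => mul_nonneg (g0 x) (hW x).le
    simp only [ne_eq, OfNat.ofNat_ne_zero, not_false_eq_true, zero_pow]
    positivity
  · set lam := Q / d with hlam
    have hl : 0 < lam := by positivity
    have key : d ≤ (lam * P + Q / lam) / 2 := by
      have h3 : d ≤ ∫ x, (lam / 2 * (g x * W x) + 1 / (2 * lam) * (W x)⁻¹) ∂(haarT k) := by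
        refine integral_mono (int_cont hg) ((int_cont (hg.mul hcW)).const_mul _ |>.add
          ((int_cont hcI).const_mul _)) fun x => ?_
        have hWx := hW x
        beta_reduce
        have h4 : 1 ≤ (lam * W x + 1 / (lam * W x)) / 2 := by
          have h5 : 0 < lam * W x := by positivity
          have h6 : lam * W x + 1 / (lam * W x) - 2 = (lam * W x - 1) ^ 2 / (lam * W x) := by
            field_simp
            ring
          have h7 : 0 ≤ (lam * W x - 1) ^ 2 / (lam * W x) := by positivity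
          linarith
        have h8 : g x * 1 ≤ g x * ((lam * W x + 1 / (lam * W x)) / 2) :=
          mul_le_mul_of_nonneg_left h4 (g0 x)
        have h9 : g x * (1 / (2 * lam) * (W x)⁻¹) ≤ 1 * (1 / (2 * lam) * (W x)⁻¹) :=
          mul_le_mul_of_nonneg_right (g1 x) (by positivity)
        have e : g x * ((lam * W x + 1 / (lam * W x)) / 2) =
            lam / 2 * (g x * W x) + g x * (1 / (2 * lam) * (W x)⁻¹) := by
          field_simp
        linarith
      have i1 : Integrable (fun x => lam / 2 * (g x * W x)) (haarT k) :=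
        (int_cont (hg.mul hcW)).const_mul _
      have i2 : Integrable (fun x => 1 / (2 * lam) * (W x)⁻¹) (haarT k) :=
        (int_cont hcI).const_mul _
      rw [integral_add i1 i2, integral_const_mul, integral_const_mul] at h3
      have h5 : 1 / (2 * lam) * ∫ x, (W x)⁻¹ ∂(haarT k) ≤ 1 / (2 * lam) * Q :=
        mul_le_mul_of_nonneg_left hQ (by positivity)
      have e : lam / 2 * P + 1 / (2 * lam) * Q = (lam * P + Q / lam) / 2 := by
        field_simp
      linarith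
    have e1 : Q / lam = d := by rw [hlam]; field_simp
    rw [e1] at key
    have h5 : d ≤ lam * P := by linarith
    rw [hlam, div_mul_eq_mul_div, le_div_iff₀ h] at h5
    nlinarith

lemma PF_cont (M : ℕ) : Continuous (PF M) := by
  unfold PF
  refine continuous_finsetProd _ fun j _ => ?_
  refine Continuous.inv₀ ?_ fun x => den_ne (rr_nonneg M j) (rr_lt M j) (x j) (-1)
  exact continuous_const.sub (continuous_const.mul
    ((map_continuous (fourier (-1))).comp (continuous_apply j)))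

lemma PF_ne (M : ℕ) (x : UnitAddTorus (Fin (kk M))) : PF M x ≠ 0 := by
  unfold PF
  rw [Finset.prod_ne_zero_iff]
  exact fun j _ => inv_ne_zero (den_ne (rr_nonneg M j) (rr_lt M j) (x j) (-1))

lemma int_PF_inv : ∃ C : ℝ, 0 < C ∧ ∀ M : ℕ, 3 ≤ M →
    ∫ x, (‖PF M x‖)⁻¹ ∂(haarT (kk M)) ≤ C * Real.log M := by
  obtain ⟨C, hC, h⟩ := sum_rr
  refine ⟨C, hC, fun M hM => le_trans ?_ (h M hM)⟩
  have e : ∀ x : UnitAddTorus (Fin (kk M)), (‖PF M x‖)⁻¹ =
      ∏ j, ‖(1:ℂ) - (rr M j : ℂ) * fourier (-1) (x j)‖ := by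
    intro x
    unfold PF
    rw [norm_prod, ← Finset.prod_inv_distrib]
    refine Finset.prod_congr rfl fun j _ => ?_
    rw [norm_inv, inv_inv]
  simp only [e]
  unfold haarT
  rw [integral_fintype_prod_eq_prod (𝕜 := ℝ)
    (fun j => fun y : UnitAddCircle => ‖(1:ℂ) - (rr M j : ℂ) * fourier (-1) y‖)]
  exact Finset.prod_le_prod (fun j _ => integral_nonneg fun y => norm_nonneg _)
    fun j _ => int_fac (rr_nonneg M j) (rr_lt M j)

theorem pfl : P_PFL := by
  obtain ⟨C, hC, hCM⟩ := int_PF_inv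
  refine ⟨C, hC, fun M hM g g0 g1 => ?_⟩
  have hM3 : (3:ℝ) ≤ M := by exact_mod_cast hM
  have hL : 0 < Real.log M := Real.log_pos (by linarith)
  have hW : ∀ x, 0 < ‖PF M x‖ := fun x => norm_pos_iff.2 (PF_ne M x)
  have hcW : Continuous fun x => ‖PF M x‖ := (PF_cont M).norm
  have hh : Continuous fun x => (g x : ℂ) * (starRingEnd ℂ (PF M x) / (‖PF M x‖ : ℂ)) := by
    refine (Complex.continuous_ofReal.comp g.continuous).mul ?_
    refine Continuous.div (Complex.continuous_conj.comp (PF_cont M))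
      (Complex.continuous_ofReal.comp hcW) fun x => ?_
    have := (hW x).ne'
    exact_mod_cast this
  have hpt : ∀ x, (g x : ℂ) * (starRingEnd ℂ (PF M x) / (‖PF M x‖ : ℂ)) * PF M x =
      ((g x * ‖PF M x‖ : ℝ) : ℂ) := by
    intro x
    have h0 : (‖PF M x‖ : ℂ) ≠ 0 := by exact_mod_cast (hW x).ne'
    have h1 : starRingEnd ℂ (PF M x) * PF M x = (‖PF M x‖ : ℂ) ^ 2 := Complex.conj_mul' _
    rw [Complex.ofReal_mul]
    field_simp
    linear_combination (g x : ℂ) * h1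
  have hm : mF1 M (fun x => (g x : ℂ) * (starRingEnd ℂ (PF M x) / (‖PF M x‖ : ℂ))) =
      ((∫ x, g x * ‖PF M x‖ ∂(haarT (kk M)) : ℝ) : ℂ) := by
    unfold mF1
    simp only [hpt]
    exact integral_complex_ofReal
  refine ⟨⟨_, hh⟩, fun x => ?_, fun x hx => ?_, ?_, ?_⟩
  · show ‖(g x : ℂ) * (starRingEnd ℂ (PF M x) / (‖PF M x‖ : ℂ))‖ ≤ 1
    rw [norm_mul, norm_div, Complex.norm_conj, Complex.norm_real, Complex.norm_real, norm_norm,
      div_self (hW x).ne', mul_one, Real.norm_eq_abs, abs_of_nonneg (g0 x)]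
    exact g1 x
  · show (g x : ℂ) * (starRingEnd ℂ (PF M x) / (‖PF M x‖ : ℂ)) = 0
    rw [hx, Complex.ofReal_zero, zero_mul]
  · show (mF1 M (fun x => (g x : ℂ) * (starRingEnd ℂ (PF M x) / (‖PF M x‖ : ℂ)))).im = 0
    rw [hm, Complex.ofReal_im]
  · show _ ≤ C * Real.log M *
      (mF1 M (fun x => (g x : ℂ) * (starRingEnd ℂ (PF M x) / (‖PF M x‖ : ℂ)))).re
    rw [hm, Complex.ofReal_re]
    exact cs g.continuous hcW hW g0 g1 (by positivity) (hCM M hM)

end Pool.Agent.Q34.MC.Pfl
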