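import Pool.Agent.Q286.MC.Defs
import Pool.Agent.W190.C3

/-!
Job 703 (project MC of helper286): if `zeta` has a zero in the interior of the hull of `K` then the shifts with
`zeta (s + it)` close to `zeta (s)` on `K` are rare, also for the measures `|zeta (1/2 + it)|^β dt`, `β < 4`.
-/

set_option autoImplicit false

namespace Pool.Agent.Q34.MC.Rarem

open Complex Filter Topology Set MeasureTheory
open Pool.Agent.Y834.UT Pool.Agent.W190 H353

/-- small perturbations of zeta on the hull have zeros -/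
lemma meets {K : Set ℂ} (hK : IsCompact K) (hKs : ∀ z ∈ K, 1 / 2 < z.re ∧ z.re < 1)
    {z₀ : ℂ} (hz₀ : z₀ ∈ interior (hull K)) (hζ : riemannZeta z₀ = 0) :
    ∃ ε : ℝ, 0 < ε ∧ ∀ t ∈ SS ε K riemannZeta, ∃ s ∈ hull K, riemannZeta (s + t * I) = 0 := by
  obtain ⟨a, b, B, h1, h2, h3, h4, hR⟩ := exists_hull_rect hK hKs
  have hUo : IsOpen {z : ℂ | z.re < 1} := isOpen_lt Complex.continuous_re continuous_const
  have hhU : hull K ⊆ {z : ℂ | z.re < 1} := fun z hz => lt_of_le_of_lt (hR hz).2.1 h3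
  have hζd : DifferentiableOn ℂ riemannZeta {z : ℂ | z.re < 1} := by
    have := F_diff 0
    simpa using this
  obtain ⟨c₀, hc₀, -, hgap⟩ := exists_gap z₀
  obtain ⟨r', hr', hball⟩ := Metric.isOpen_iff.1 isOpen_interior z₀ hz₀
  set r := min (r' / 2) (c₀ / 2) with hr
  have hr0 : 0 < r := lt_min (by linarith) (by linarith)
  have hrr : r < r' := lt_of_le_of_lt (min_le_left _ _) (by linarith)
  have hrc : r < c₀ := lt_of_le_of_lt (min_le_right _ _) (by linarith)
  have hcV : Metric.closedBall z₀ r ⊆ hull K :=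
    (Metric.closedBall_subset_ball hrr).trans (hball.trans interior_subset)
  have hne1 : ∀ z ∈ hull K, z ≠ 1 := by
    intro z hz h
    have := hhU hz
    rw [h, mem_ofPred_eq, one_re] at this
    exact lt_irrefl _ this
  obtain ⟨w, hw, hmin⟩ := (isCompact_sphere z₀ r).exists_isMinOn
    (NormedSpace.sphere_nonempty.2 hr0.le) (f := fun z => ‖riemannZeta z‖)
    ((hζd.continuousOn.mono (Metric.sphere_subset_closedBall.trans (hcV.trans hhU))).norm)
  have hwz : w ≠ z₀ := by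
    rintro rfl
    rw [Metric.mem_sphere, dist_self] at hw
    linarith
  have hgw : riemannZeta w ≠ 0 := by
    intro h0
    have hwh := hcV (Metric.sphere_subset_closedBall hw)
    have e1 : FF w = (w - 1) * riemannZeta w := ZU.J_g2b.FF_ne (hne1 w hwh)
    have e2 : FF w = 0 := by rw [e1, h0, mul_zero]
    have e3 := hgap w e2 hwz
    rw [Metric.mem_sphere, dist_comm, dist_eq_norm] at hw
    linarith
  set m := ‖riemannZeta w‖ with hm
  have hm0 : 0 < m := norm_pos_iff.2 hgw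
  refine ⟨m / 2, by positivity, ?_⟩
  rintro t ⟨δ, hδ, ht⟩
  have hFd := F_diff t
  have hall : ∀ z ∈ hull K, ‖riemannZeta (z + t * I) - riemannZeta z‖ ≤ δ :=
    max_hull hK (F := fun z => riemannZeta (z + t * I) - riemannZeta z) (hFd.sub hζd) hUo hhU ht
  by_contra hcon
  push Not at hcon
  have hd : DiffContOnCl ℂ (fun z => (riemannZeta (z + t * I))⁻¹) (Metric.ball z₀ r) := by
    have hdd : DifferentiableOn ℂ (fun z => (riemannZeta (z + t * I))⁻¹) (Metric.closedBall z₀ r) :=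
      (hFd.mono (hcV.trans hhU)).inv fun z hz => hcon z (hcV hz)
    refine ⟨hdd.mono Metric.ball_subset_closedBall, ?_⟩
    rw [closure_ball z₀ hr0.ne']
    exact hdd.continuousOn
  have hbd : ∀ z ∈ frontier (Metric.ball z₀ r), ‖(riemannZeta (z + t * I))⁻¹‖ ≤ 2 / m := by
    intro z hz
    rw [frontier_ball z₀ hr0.ne'] at hz
    have e1 : m ≤ ‖riemannZeta z‖ := hmin hz
    have e2 := hall z (hcV (Metric.sphere_subset_closedBall hz))
    have e3 : ‖riemannZeta z‖ ≤ ‖riemannZeta (z + t * I)‖ +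
        ‖riemannZeta (z + t * I) - riemannZeta z‖ := by
      have := norm_sub_norm_le (riemannZeta z) (riemannZeta (z + t * I))
      rw [norm_sub_rev] at this
      linarith
    have e4 : m / 2 ≤ ‖riemannZeta (z + t * I)‖ := by linarith
    rw [norm_inv, inv_le_comm₀ (by linarith) (by positivity), inv_div]
    exact e4
  have hfin := Complex.norm_le_of_forall_mem_frontier_norm_le Metric.isBounded_ball hd hbd
    (subset_closure (Metric.mem_ball_self hr0))
  have e5 : riemannZeta (z₀ + t * I) ≠ 0 := hcon z₀ (interior_subset hz₀)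
  have e6 := hall z₀ (interior_subset hz₀)
  rw [hζ, sub_zero] at e6
  rw [norm_inv, inv_le_comm₀ (norm_pos_iff.2 e5) (by positivity), inv_div] at hfin
  linarith

/-- the measure of the shifts which meet a zero -/
lemma vol_bd {a b B : ℝ} (h1 : 1 / 2 < a) (h2 : a ≤ b) (h3 : b < 1) (hB : 0 < B) :
    ∃ δ : ℝ, 0 < δ ∧ ∀ᶠ T : ℝ in atTop,
      volume {t : ℝ | t ∈ Icc 0 T ∧ ∃ s ∈ ZU.rect a b B, riemannZeta (s + t * I) = 0} ≤
        ENNReal.ofReal (T ^ (1 - δ)) := by
  have ha1 : a < 1 := by linarith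
  set e : ℝ := (2 * a - 1) ^ 2 with he
  have he0 : 0 < e := by
    have : 0 < 2 * a - 1 := by linarith
    positivity
  obtain ⟨C, hC, hdens⟩ := carlson a (e / 2) h1 ha1 (by positivity)
  have hexp : 4 * a * (1 - a) + e / 2 = 1 - e / 2 := by rw [he]; ring
  rw [hexp] at hdens
  have hα0 : 0 ≤ 1 - e / 2 := by
    have h5 : (2 * a - 1) ^ 2 ≤ 1 := by
      have : 0 < 2 * a - 1 := by linarith
      nlinarith
    rw [he]
    linarith
  refine ⟨e / 4, by positivity, ?_⟩
  filter_upwards [Pool.Agent.Q286.SB.pow_absorb (2 * B * (C * 2 ^ (1 - e / 2)))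
    (show 1 - e / 2 < 1 - e / 4 by linarith), eventually_ge_atTop (B + 3),
    eventually_ge_atTop 1] with T hT1 hT2 hT3
  set S := ZF a (T + B) with hS
  have hcard : (S.card : ℝ) ≤ C * (T + B + 3) ^ (1 - e / 2) := by
    have h5 := hdens (T + B + 3) (by linarith) S (fun ρ hρ => by
      have := mem_ZF.1 hρ
      exact this)
    refine le_trans ?_ h5
    have h6 : (S.card : ℝ) = ∑ ρ ∈ S, (1 : ℝ) := by simp
    rw [h6]
    refine Finset.sum_le_sum fun ρ hρ => ?_
    have h7 : 1 ≤ mu ρ := mu_pos ρ (mem_ZF.1 hρ).1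
    exact_mod_cast h7
  have hcov : {t : ℝ | t ∈ Icc 0 T ∧ ∃ s ∈ ZU.rect a b B, riemannZeta (s + t * I) = 0} ⊆
      ⋃ ρ ∈ S, Icc (ρ.im - B) (ρ.im + B) := by
    rintro t ⟨ht, s, hs, hz⟩
    have him : (s + t * I).im = s.im + t := by simp
    have hre : (s + t * I).re = s.re := by simp
    have hsB : |s.im| ≤ B := hs.2.2
    have hs1 : a ≤ s.re := hs.1
    have hs2 : s.re ≤ b := hs.2.1
    have hsB' := abs_le.1 hsB
    have hne : s + t * I ≠ 1 := by
      intro h
      have := congrArg Complex.re h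
      rw [hre, one_re] at this
      linarith
    have hFF : FF (s + t * I) = 0 := by
      have e1 : FF (s + t * I) = (s + t * I - 1) * riemannZeta (s + t * I) := ZU.J_g2b.FF_ne hne
      rw [e1, hz, mul_zero]
    have hmem : s + t * I ∈ S := by
      rw [hS, mem_ZF]
      refine ⟨hFF, by rw [hre]; exact hs1, ?_⟩
      rw [him]
      rw [mem_Icc] at ht
      rw [abs_le]
      constructor <;> linarith [hsB'.1, hsB'.2, ht.1, ht.2]
    rw [mem_iUnion₂]
    refine ⟨_, hmem, ?_⟩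
    rw [him, mem_Icc]
    constructor <;> linarith [hsB'.1, hsB'.2]
  refine (measure_mono hcov).trans ((measure_biUnion_finset_le _ _).trans ?_)
  have hvol : ∀ ρ ∈ S, volume (Icc (ρ.im - B) (ρ.im + B)) ≤ ENNReal.ofReal (2 * B) := by
    intro ρ _
    rw [Real.volume_Icc]
    apply ENNReal.ofReal_le_ofReal
    linarith
  refine (Finset.sum_le_sum hvol).trans ?_
  rw [Finset.sum_const, nsmul_eq_mul, ← ENNReal.ofReal_natCast, ← ENNReal.ofReal_mul (Nat.cast_nonneg _)]
  apply ENNReal.ofReal_le_ofReal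
  have hT0 : 0 < T := by linarith
  have h8 : (T + B + 3) ^ (1 - e / 2) ≤ (2 * T) ^ (1 - e / 2) :=
    Real.rpow_le_rpow (by linarith) (by linarith) hα0
  have h9 : (2 * T) ^ (1 - e / 2) = 2 ^ (1 - e / 2) * T ^ (1 - e / 2) :=
    Real.mul_rpow (by norm_num) hT0.le
  calc (S.card : ℝ) * (2 * B) ≤ (C * (T + B + 3) ^ (1 - e / 2)) * (2 * B) :=
        mul_le_mul_of_nonneg_right hcard (by linarith)
    _ ≤ (C * (2 ^ (1 - e / 2) * T ^ (1 - e / 2))) * (2 * B) := by
        rw [← h9]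
        gcongr
    _ = 2 * B * (C * 2 ^ (1 - e / 2)) * T ^ (1 - e / 2) := by ring
    _ ≤ T ^ (1 - e / 4) := hT1

lemma ptw {x lam β : ℝ} (hx : 0 ≤ x) (hl : 0 < lam) (hβ0 : 0 ≤ β) (hβ4 : β < 4) :
    x ^ β ≤ lam ^ β + lam ^ (β - 4) * x ^ 4 := by
  rcases le_or_gt x lam with h | h
  · have h1 : x ^ β ≤ lam ^ β := Real.rpow_le_rpow hx h hβ0
    have h2 : 0 ≤ lam ^ (β - 4) * x ^ 4 := by positivity
    linarith
  · have hx0 : 0 < x := hl.trans h
    have h1 : x ^ β = x ^ (β - 4) * x ^ 4 := by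
      rw [← Real.rpow_natCast x 4, ← Real.rpow_add hx0]
      congr 1
      push_cast
      ring
    have h2 : x ^ (β - 4) ≤ lam ^ (β - 4) :=
      Real.rpow_le_rpow_of_nonpos hl h.le (by linarith)
    have h3 : 0 ≤ lam ^ β := by positivity
    rw [h1]
    have h4 := mul_le_mul_of_nonneg_right h2 (show 0 ≤ x ^ 4 by positivity)
    linarith

lemma zc : Continuous fun t : ℝ => riemannZeta (1 / 2 + t * I) := by
  rw [continuous_iff_continuousAt]
  intro t
  have h1 : (1 / 2 + (t : ℂ) * I) ≠ 1 := by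
    intro h
    have := congrArg Complex.re h
    norm_num at this
  have h2 : ContinuousAt (fun t : ℝ => (1 / 2 + (t : ℂ) * I)) t := by fun_prop
  exact ContinuousAt.comp (g := riemannZeta) (differentiableAt_riemannZeta h1).continuousAt h2

lemma fourth {T : ℝ} (hT : 1000 ≤ T) :
    ∫ t in Icc 0 T, ‖riemannZeta (1 / 2 + t * I)‖ ^ 4 ≤ 4 / 5 * (T * Real.log T ^ 4) := by
  have h := Pool.Agent.TH158.FM.fourth_all T hT
  rw [intervalIntegral.integral_of_le (by linarith), ← integral_Icc_eq_integral_Ioc] at h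
  have e : ∀ t : ℝ, Pool.Agent.TH158.FM.pt (1 / 2) t = 1 / 2 + t * I := by
    intro t
    unfold Pool.Agent.TH158.FM.pt
    push_cast
    rfl
  simp only [e] at h
  exact h

theorem rarem : Pool.Agent.Q286.MC.P_RAREM := by
  intro K hK hKs z₀ hz₀ hζ β hβ0 hβ4
  obtain ⟨a, b, B, h1, h2, h3, h4, hR⟩ := exists_hull_rect hK hKs
  obtain ⟨ε, hε, hm⟩ := meets hK hKs hz₀ hζ
  obtain ⟨δ', hδ', hv⟩ := vol_bd h1 h2 h3 h4
  have hb : 0 < 4 - β := by linarith
  set δ : ℝ := (4 - β) * δ' / 16 with hδ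
  have hδ0 : 0 < δ := by positivity
  have hδ4 : δ ≤ δ' / 4 := by
    rw [hδ]
    nlinarith
  refine ⟨ε, δ, hε, hδ0, ?_⟩
  filter_upwards [hv, Pool.Agent.Q286.SB.pow_absorb 2 (show 1 - δ' / 2 < 1 - δ by linarith),
    Pool.Agent.Q286.SB.pow_log_absorb (2 * (4 / 5)) 4 (show 1 - 2 * δ < 1 - δ by linarith),
    eventually_ge_atTop 1000] with T hT1 hT2 hT3 hT4
  have hT0 : 0 < T := by linarith
  have hT1' : 1 ≤ T := by linarith
  set lam : ℝ := T ^ (δ' / 8) with hlam
  have hl : 0 < lam := by positivity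
  set S := SS ε K riemannZeta ∩ Icc 0 T with hS
  have hsub : S ⊆ {t : ℝ | t ∈ Icc 0 T ∧ ∃ s ∈ ZU.rect a b B, riemannZeta (s + t * I) = 0} := by
    rintro t ⟨ht, htT⟩
    obtain ⟨s, hs, hz⟩ := hm t ht
    exact ⟨htT, s, hR hs, hz⟩
  have hvS : volume S ≤ ENNReal.ofReal (T ^ (1 - δ')) := (measure_mono hsub).trans hT1
  have hfin : volume S ≠ ⊤ := (hvS.trans_lt ENNReal.ofReal_lt_top).ne
  have hvr : volume.real S ≤ T ^ (1 - δ') := ENNReal.toReal_le_of_le_ofReal (by positivity) hvS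
  have cβ : Continuous fun t : ℝ => ‖riemannZeta (1 / 2 + t * I)‖ ^ β :=
    zc.norm.rpow_const fun _ => Or.inr hβ0
  have c4 : Continuous fun t : ℝ => ‖riemannZeta (1 / 2 + t * I)‖ ^ 4 := zc.norm.pow 4
  have iβ : IntegrableOn (fun t : ℝ => ‖riemannZeta (1 / 2 + t * I)‖ ^ β) S :=
    (cβ.continuousOn.integrableOn_compact isCompact_Icc).mono_set inter_subset_right
  have i4I : IntegrableOn (fun t : ℝ => ‖riemannZeta (1 / 2 + t * I)‖ ^ 4) (Icc 0 T) :=
    c4.continuousOn.integrableOn_compact isCompact_Icc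
  have i4 : IntegrableOn (fun t : ℝ => ‖riemannZeta (1 / 2 + t * I)‖ ^ 4) S :=
    i4I.mono_set inter_subset_right
  have iC : IntegrableOn (fun _ : ℝ => lam ^ β) S := integrableOn_const hfin
  have i4' : IntegrableOn (fun t : ℝ => lam ^ (β - 4) * ‖riemannZeta (1 / 2 + t * I)‖ ^ 4) S :=
    i4.const_mul _
  have h5 : ∫ t in S, ‖riemannZeta (1 / 2 + t * I)‖ ^ β ≤
      ∫ t in S, (lam ^ β + lam ^ (β - 4) * ‖riemannZeta (1 / 2 + t * I)‖ ^ 4) :=
    setIntegral_mono iβ (iC.add i4') fun t => ptw (norm_nonneg _) hl hβ0 hβ4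
  rw [integral_add iC i4', integral_const_mul, setIntegral_const, smul_eq_mul] at h5
  have h6 : ∫ t in S, ‖riemannZeta (1 / 2 + t * I)‖ ^ 4 ≤ 4 / 5 * (T * Real.log T ^ 4) :=
    (setIntegral_mono_set i4I (Eventually.of_forall fun t => by positivity)
      (ae_of_all _ fun t ht => ht.2)).trans (fourth hT4)
  have h7 : volume.real S * lam ^ β ≤ T ^ (1 - δ' / 2) := by
    have e1 : lam ^ β = T ^ (δ' / 8 * β) := by rw [hlam, ← Real.rpow_mul hT0.le]
    calc volume.real S * lam ^ β ≤ T ^ (1 - δ') * lam ^ β :=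
          mul_le_mul_of_nonneg_right hvr (by positivity)
      _ = T ^ (1 - δ' + δ' / 8 * β) := by rw [e1, ← Real.rpow_add hT0]
      _ ≤ T ^ (1 - δ' / 2) := by
          apply Real.rpow_le_rpow_of_exponent_le hT1'
          nlinarith
  have h8 : lam ^ (β - 4) * ∫ t in S, ‖riemannZeta (1 / 2 + t * I)‖ ^ 4 ≤
      4 / 5 * T ^ (1 - 2 * δ) * Real.log T ^ 4 := by
    have e1 : lam ^ (β - 4) = T ^ (-(2 * δ)) := by
      rw [hlam, ← Real.rpow_mul hT0.le]
      congr 1
      rw [hδ]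
      ring
    have e2 : T ^ (1 - 2 * δ) = T ^ (-(2 * δ)) * T := by
      rw [← Real.rpow_add_one hT0.ne']
      congr 1
      ring
    calc lam ^ (β - 4) * ∫ t in S, ‖riemannZeta (1 / 2 + t * I)‖ ^ 4
        ≤ lam ^ (β - 4) * (4 / 5 * (T * Real.log T ^ 4)) :=
          mul_le_mul_of_nonneg_left h6 (by positivity)
      _ = 4 / 5 * T ^ (1 - 2 * δ) * Real.log T ^ 4 := by
          rw [e1, e2]
          ring
  linarith

end Pool.Agent.Q34.MC.Rarem
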